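import Pool.Agent.DK73.Main

/-!
# The strings with the most folded states in a class of `2 ^ (⌊n/2⌋ + 1)` strings

`K_n` = the strings in which the letters of the creases `c_(2i)` and `c_(2i+1)` differ for all `i ≥ 1`.
The maximum of `N(s)` over `K_n` is `C_a * C_b` (`C` the Catalan numbers, `a + b = ⌊n/2⌋ + 2`), and it is
attained exactly by the two strings `VVMMVVMM...` and `MMVVMMVV...`.

Proof idea. At the creases `3, 5, ...` the next segment is forced to be next to the last one. At the
creases `2, 4, 6, ...` it may go to any gap on the prescribed side which is not covered by an arc at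
coordinate `0`. A move down to the `k`-th of the `d` gaps below, counted from the bottom, leaves `k`
gaps below and one more gap above. So the numbers of gaps below and above perform two independent
walks, and `N(s)` is the number of pairs `(P, Q)` of lattice paths with the same end points as the
path `H` of the directions of the creases `1, 2, 4, 6, ...` and with `P ≤ H ≤ Q`. If `h ≥ 1` is the
maximal height of `H` and `H'` is `H` with every height `h` replaced by `h - 2`, then reflecting `P`
and `Q` at the height `h - 1` and exchanging them on the intervals on which `P` is above the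
reflection of `Q` and reaches the height `h` is an injection from the pairs for `H` to the pairs for
`H'`; it is not surjective if `h ≥ 2`, or if `H` has the heights `1` and `-1`. This leads in finitely
many steps to the alternating path.
-/

namespace Pool.Agent.Results.MP_15ecc6_co.DoubleCatalan

/-- **Result.** Let `n ≥ 1`, `a = ⌊(⌊n/2⌋+1)/2⌋ + 1`, `b = ⌊⌊n/2⌋/2⌋ + 1`. Every string `s` of length `n` in
which the letters of the creases `c_(2i)` and `c_(2i+1)` differ (for all `i ≥ 1` with `2i+1 ≤ n`)
satisfies `N(s) ≤ C_a * C_b`, and the strings of this class with `N(s) = C_a * C_b` are exactly the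
first `n` letters of `VVMMVVMM...` and of `MMVVMMVV...`. -/
theorem result (n : ℕ) (hn : 1 ≤ n) :
    (∀ s : Fin n → Bool, Pool.Agent.DK73.InK s →
      numStates s ≤ catalan ((n/2+1)/2 + 1) * catalan (n/2/2 + 1)) ∧
    {s : Fin n → Bool | Pool.Agent.DK73.InK s ∧
      numStates s = catalan ((n/2+1)/2 + 1) * catalan (n/2/2 + 1)} =
      {vvmm n, fun i => !vvmm n i} :=
  Pool.Agent.DK73.main n hn

end Pool.Agent.Results.MP_15ecc6_co.DoubleCatalan
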