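import Pool.Agent.MV68.DCBase
import Pool.Agent.MV68.CardSt
import Pool.Agent.MV68.LcPer

/-!
# At most `10^23 * (11/5)^n` flat foldings of a strip for a mountain-valley string

The exact recursion for `N(s)` (hand-in StateFormula) counts noncrossing matchings of the sides of
the segments in which every bounded face meets exactly one step with the sign `+`. Reading the sides
in their order, the state is the list of the open faces, each of which has already met its step `+`
or not. At every position a face may be opened, and the innermost one may be closed if it has met
its step `+`. Let `g(w)` be the number of ways to close the list `w` up to the end of an arc. The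
weighted sum `∑ E(w) g(w)^2` over all lists, where the weight `E` depends on six signs around the
position and on the five innermost faces (and has a factor for every other face), grows by a factor
of at most `R` in a step, where `R` depends on the seven signs around the step: this is the
Cauchy-Schwarz inequality with weights (Schur test), one inequality between integers for every
class of lists, in all 24320 inequalities checked by the kernel. Every crease gives two steps, with
reversed and negated signs around them, and the product of the two factors is at most `4.838`, which
is less than `(11/5)^2`; the rest absorbs the number `(n+1)^2` of choices of the two outermost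
sides.
-/

namespace Pool.Agent.Results.MP_15ecc6_co.ElevenFifths

open Pool.Agent.Results.MP_15ecc6_co.DoubleCatalan Pool.Agent.MV68

theorem numStates_le {n : ℕ} (s : Fin n → Bool) : 5 ^ n * numStates s ≤ 10 ^ 23 * 11 ^ n := by
  have e : thz n (dirS s) = lbs s := funext (lbs_eq s)
  have h1 := Lc.sum_le n s
  rw [← e, ← card_St', ← numStates_eq] at h1
  have h2 : (5:ℚ)^n * (numStates s : ℚ) ≤ 10^23 * 11^n := by
    calc (5:ℚ)^n * (numStates s : ℚ) ≤ 5^n * (10^23 * (11/5)^n) :=
          mul_le_mul_of_nonneg_left h1 (by positivity)
      _ = 10^23 * (5 * (11/5))^n := by rw [mul_pow]; ring
      _ = 10^23 * 11^n := by norm_num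
  exact_mod_cast h2

/-- **Result.** `M(n) ≤ 10^23 * (11/5)^n` for every `n`. -/
theorem result (n : ℕ) : 5 ^ n * maxStates n ≤ 10 ^ 23 * 11 ^ n := by
  unfold maxStates
  obtain ⟨s, _, hs⟩ := Finset.exists_mem_eq_sup Finset.univ Finset.univ_nonempty
    (fun s : Fin n → Bool => numStates s)
  rw [hs]
  exact numStates_le s

end Pool.Agent.Results.MP_15ecc6_co.ElevenFifths
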