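import Pool.Agent.MV68.CardSt
import Pool.Agent.MV68.Transfer

/-!
# An exact recursion for the number of flat foldings of a strip with a given mountain-valley string

Walk around the strip, `A_0, ..., A_n, B_n, ..., B_0` (`A_i`, `B_i` are the two sides of the segment
`S_i`; positions `0, ..., 2n+1`, continued with period `2n+2`). The step from a side to the next one
has the sign `+1` or `-1`: on the way out `+1` at a valley and `-1` at a mountain, on the way back
the opposite sign, and `-1` at both ends. `label s z` is the sum of the first `z` signs. In a folded
state two segments at consecutive heights face each other with two sides; these pairs form a
noncrossing matching of all the sides but the two outermost ones. Walking around a bounded face of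
the matching one meets exactly one step with the sign `+1` (the outer arc of the face), which gives:
the label goes up by one from the first to the second end of every pair, if one starts at an
outermost side. Conversely every noncrossing matching with this property comes from exactly one
folded state: remove the last segment, use the folded state for the shorter string, and put the last
segment back; a parity argument shows that it can be reached.

`matchings` counts such matchings of `2m` consecutive positions.
-/

namespace Pool.Agent.Results.MP_15ecc6_co.StateFormula

open Pool.Agent.Results.MP_15ecc6_co.DoubleCatalan Pool.Agent.MV68

/-- **Result.** For every string `s` the number `N(s)` of folded states is given by the recursion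
`cm` (noncrossing matchings with labels) in terms of the labels `lbs s` of the sides. -/
theorem result (n : ℕ) (s : Fin n → Bool) :
    numStates s = ∑ j ∈ Finset.range (n+1), ∑ m ∈ Finset.range (n+1),
      cm (lbs s) m (2*j+1) * cm (lbs s) (n-m) (2*j+2*m+2) := by
  have e : thz n (dirS s) = lbs s := funext (lbs_eq s)
  rw [numStates_eq, card_St', e]

end Pool.Agent.Results.MP_15ecc6_co.StateFormula
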