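import Pool.Agent.TP73.Main

/-!
# Mountain-valley strings with `(3 / √2 - o(1)) ^ n` flat foldings

`M(n)` grows at least like `(3 / √2) ^ n` on the exponential scale: for every `x < 3 / √2` one has
`M(n) ≥ x ^ n` for all large `n`.

Proof idea. Reading the sides of the segments in their order, the folded states of a string are
counted by the noncrossing matchings of the steps of a path with steps `±1` in which the height goes
up by one along every pair; for a periodic and symmetric path this gives a lower bound for `M(n)`.
The path used here consists of two long plateaus per period, the zigzags `0 1 2 1` and `2 1 2 3`, the
second one level above the first. The generating function (in the number of pairs) of the intervals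
around the junction of the two plateaus satisfies a linear system of inequalities whose coefficients
are the local generating functions of the zigzags; at the point `√2 / 3`, which lies inside the disc of
convergence of the local ones, the system has no finite solution.
-/

namespace Pool.Agent.Results.MP_15ecc6_co.ThreeOverRootTwo

open Pool.Agent.Results.MP_15ecc6_co.DoubleCatalan

/-- **Result.** For every `x < 3 / √2`, `M(n) ≥ x ^ n` for all large `n`. -/
theorem result (x : ℝ) (hx0 : 0 ≤ x) (hx : x < 3 / √2) :
    ∃ n₀ : ℕ, ∀ n ≥ n₀, x ^ n ≤ (maxStates n : ℝ) :=
  Pool.Agent.TP73.main x hx0 hx

end Pool.Agent.Results.MP_15ecc6_co.ThreeOverRootTwo
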